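import Pool.Agent.Helper4.CB.Defs

/-!
# CB, piece INST: the residue `r` and coprimality from the places
-/

set_option autoImplicit false

namespace Pool.Agent.Helper56.CB

open NumberField Pool.Agent.Helper4.CB

/-- `r = 5` modulo `2 ^ J`, `r` prime to `m1` and to `2` -/
theorem exists_r (J m1 : ℕ) (h : 0 < m1) : ∃ r : ℕ, r ≡ 5 [MOD 2 ^ J] ∧
    r ≡ 1 [MOD (m1 / 2 ^ m1.factorization 2)] ∧ r.Coprime (m1 * 2 ^ J) ∧ Odd r := by
  have hodd : Nat.Coprime 2 (m1 / 2 ^ m1.factorization 2) :=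
    Nat.coprime_ordCompl Nat.prime_two h.ne'
  have hco : Nat.Coprime (2 ^ (J + 1)) (m1 / 2 ^ m1.factorization 2) := hodd.pow_left _
  obtain ⟨r, h1, h2⟩ := Nat.chineseRemainder hco 5 1
  have hr2 : Odd r := by
    have h3 : r ≡ 5 [MOD 2] := h1.of_dvd (dvd_pow_self 2 (Nat.succ_ne_zero J))
    rw [Nat.odd_iff]
    exact h3
  have hc2 : Nat.Coprime r 2 := (Nat.coprime_two_right).2 hr2
  have hc1 : Nat.Coprime r (m1 / 2 ^ m1.factorization 2) := by
    have := h2.gcd_eq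
    rw [Nat.gcd_one_left] at this
    exact this
  refine ⟨r, h1.of_dvd (pow_dvd_pow 2 (Nat.le_succ J)), h2, ?_, hr2⟩
  have hm : m1 = 2 ^ m1.factorization 2 * (m1 / 2 ^ m1.factorization 2) :=
    (Nat.ordProj_mul_ordCompl_eq_self m1 2).symm
  refine Nat.Coprime.mul_right ?_ (hc2.pow_right _)
  rw [hm]
  exact Nat.Coprime.mul_right (hc2.pow_right _) hc1

/-- coprimality from the places -/
theorem coprime_of_places {K : Type} [Field K] [NumberField K] {u v : 𝓞 K} {m : ℕ}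
    (hm : ∀ p : Pl K, (m : 𝓞 K) ∈ p.asIdeal → u ∉ p.asIdeal)
    (h : ∀ p : Pl K, ¬ (u ∈ p.asIdeal ∧ v ∈ p.asIdeal)) : IsCoprime u ((m : 𝓞 K) * v) := by
  rw [← Ideal.isCoprime_span_singleton_iff, Ideal.isCoprime_iff_sup_eq]
  by_contra hne
  obtain ⟨p, hp, hle⟩ := Ideal.exists_le_maximal _ hne
  have hp0 : p ≠ ⊥ := Ring.ne_bot_of_isMaximal_of_not_isField hp (RingOfIntegers.not_isField K)
  have hu : u ∈ p := hle (Ideal.mem_sup_left (Ideal.mem_span_singleton_self u))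
  have hv : (m : 𝓞 K) * v ∈ p := hle (Ideal.mem_sup_right (Ideal.mem_span_singleton_self _))
  rcases hp.isPrime.mem_or_mem hv with h1 | h1
  · exact hm ⟨p, hp.isPrime, hp0⟩ h1 hu
  · exact h ⟨p, hp.isPrime, hp0⟩ ⟨hu, h1⟩

/-- `u = r` modulo `m` and `r` prime to `m`: no place above `m` contains `u` -/
theorem notMem_of_congr {K : Type} [Field K] [NumberField K] {r m : ℕ} (hr : r.Coprime m)
    {u : 𝓞 K} (hu : (m : 𝓞 K) ∣ u - (r : 𝓞 K)) (p : Pl K) (hp : (m : 𝓞 K) ∈ p.asIdeal) :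
    u ∉ p.asIdeal := by
  intro hup
  have hr' : (r : 𝓞 K) ∈ p.asIdeal := by
    obtain ⟨c, hc⟩ := hu
    have e : (r : 𝓞 K) = u - (m : 𝓞 K) * c := by rw [← hc]; ring
    rw [e]
    exact p.asIdeal.sub_mem hup (Ideal.mul_mem_right _ _ hp)
  have hco : IsCoprime (r : 𝓞 K) (m : 𝓞 K) := by
    have := (Nat.isCoprime_iff_coprime.2 hr).map (Int.castRingHom (𝓞 K))
    simpa using this
  obtain ⟨x, y, hxy⟩ := hco
  refine p.isPrime.ne_top ((Ideal.eq_top_iff_one _).2 ?_)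
  rw [← hxy]
  exact p.asIdeal.add_mem (Ideal.mul_mem_left _ _ hr') (Ideal.mul_mem_left _ _ hp)

end Pool.Agent.Helper56.CB
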