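import Pool.Agent.Helper16.CB.Defs

/-!
# CB, piece STEPC: the substitution `s ↦ c + 1 / s`

`Tm c N f = s ^ N f(c + 1 / s)`, `Sm c N` is its inverse on polynomials of degree at most `N`.
-/

set_option autoImplicit false

namespace Pool.Agent.Helper56.CB

open Polynomial Pool.Agent.Helper16.CB

variable {K : Type*} [Field K]

/-- `s ^ N f(c + 1 / s)` -/
noncomputable def Tm (c : K) (N : ℕ) (f : K[X]) : K[X] := reflect N (taylor c f)

/-- the inverse of `Tm` -/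
noncomputable def Sm (c : K) (N : ℕ) (f : K[X]) : K[X] := taylor (-c) (reflect N f)

theorem Tm_Sm (c : K) (N : ℕ) (f : K[X]) : Tm c N (Sm c N f) = f := by
  unfold Tm Sm
  rw [taylor_taylor, add_neg_cancel, taylor_zero, reflect_reflect]

theorem Sm_Tm (c : K) (N : ℕ) (f : K[X]) : Sm c N (Tm c N f) = f := by
  unfold Tm Sm
  rw [reflect_reflect, taylor_taylor, neg_add_cancel, taylor_zero]

theorem Tm_natDegree_le {c : K} {N : ℕ} {f : K[X]} (hf : f.natDegree ≤ N) :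
    (Tm c N f).natDegree ≤ N := by
  unfold Tm
  refine (natDegree_reflect_le).trans ?_
  rw [natDegree_taylor, max_eq_left hf]

theorem Sm_natDegree_le {c : K} {N : ℕ} {f : K[X]} (hf : f.natDegree ≤ N) :
    (Sm c N f).natDegree ≤ N := by
  unfold Sm
  rw [natDegree_taylor]
  refine (natDegree_reflect_le).trans ?_
  rw [max_eq_left hf]

theorem Tm_mul {c : K} {N M : ℕ} {f g : K[X]} (hf : f.natDegree ≤ N) (hg : g.natDegree ≤ M) :
    Tm c (N + M) (f * g) = Tm c N f * Tm c M g := by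
  unfold Tm
  rw [taylor_mul, reflect_mul _ _ (by rwa [natDegree_taylor]) (by rwa [natDegree_taylor])]

theorem Sm_mul {c : K} {N M : ℕ} {f g : K[X]} (hf : f.natDegree ≤ N) (hg : g.natDegree ≤ M) :
    Sm c (N + M) (f * g) = Sm c N f * Sm c M g := by
  unfold Sm
  rw [reflect_mul _ _ hf hg, taylor_mul]

theorem Tm_one (c : K) (N : ℕ) : Tm c N (1 : K[X]) = X ^ N := by
  unfold Tm
  rw [taylor_one, C_1, reflect_one]

theorem Tm_zero (c : K) (N : ℕ) : Tm c N (0 : K[X]) = 0 := by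
  unfold Tm
  rw [map_zero, reflect_zero]

theorem Sm_zero (c : K) (N : ℕ) : Sm c N (0 : K[X]) = 0 := by
  unfold Sm
  rw [reflect_zero, map_zero]

theorem Tm_sub (c : K) (N : ℕ) (f g : K[X]) : Tm c N (f - g) = Tm c N f - Tm c N g := by
  unfold Tm
  rw [map_sub, reflect_sub]

theorem Tm_neg (c : K) (N : ℕ) (f : K[X]) : Tm c N (-f) = -Tm c N f := by
  unfold Tm
  rw [map_neg, reflect_neg]

theorem Tm_coeff_top (c : K) (N : ℕ) (f : K[X]) : (Tm c N f).coeff N = f.eval c := by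
  unfold Tm
  rw [coeff_reflect, revAt_le le_rfl, Nat.sub_self, taylor_coeff_zero]

theorem Tm_ne_zero {c : K} {N : ℕ} {f : K[X]} (hf : f ≠ 0) : Tm c N f ≠ 0 := by
  intro h
  apply hf
  rw [← Sm_Tm c N f, h, Sm_zero]

theorem Tm_natDegree {c : K} {N : ℕ} {f : K[X]} (hf : f.natDegree ≤ N) (hc : f.eval c ≠ 0) :
    (Tm c N f).natDegree = N :=
  le_antisymm (Tm_natDegree_le hf) (le_natDegree_of_ne_zero (by rwa [Tm_coeff_top]))

theorem Tm_leadingCoeff {c : K} {N : ℕ} {f : K[X]} (hf : f.natDegree ≤ N) (hc : f.eval c ≠ 0) :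
    (Tm c N f).leadingCoeff = f.eval c := by
  rw [leadingCoeff, Tm_natDegree hf hc, Tm_coeff_top]

theorem Tm_eval {c s : K} (hs : s ≠ 0) {N : ℕ} {f : K[X]} (hf : f.natDegree ≤ N) :
    (Tm c N f).eval s = s ^ N * f.eval (c + s⁻¹) := by
  have hinv : s⁻¹ ≠ 0 := inv_ne_zero hs
  letI : Invertible (s⁻¹) := invertibleOfNonzero hinv
  have h := eval₂_reflect_mul_pow (RingHom.id K) (s⁻¹) N (taylor c f) (by rwa [natDegree_taylor])
  rw [invOf_eq_inv, inv_inv, eval₂_id, eval₂_id, taylor_eval, add_comm] at h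
  unfold Tm
  rw [← h, mul_comm, mul_assoc, ← mul_pow, inv_mul_cancel₀ hs, one_pow, mul_one]

theorem Tm_pow {c : K} {N : ℕ} {f : K[X]} (hf : f.natDegree ≤ N) (n : ℕ) :
    Tm c (n * N) (f ^ n) = Tm c N f ^ n := by
  induction n with
  | zero => rw [zero_mul, pow_zero, pow_zero, Tm_one, pow_zero]
  | succ n ih =>
    rw [Nat.succ_mul, pow_succ, pow_succ, Tm_mul (natDegree_pow_le_of_le n hf) hf, ih]

theorem Sm_pow {c : K} {N : ℕ} {f : K[X]} (hf : f.natDegree ≤ N) (n : ℕ) :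
    Sm c (n * N) (f ^ n) = Sm c N f ^ n := by
  have h := Tm_pow (c := c) (f := Sm c N f) (Sm_natDegree_le hf) n
  rw [Tm_Sm] at h
  rw [← h, Sm_Tm]

/-- **D1** -/
theorem dvd_Tm {c : K} {d N n : ℕ} {P f : K[X]} (hP : P.natDegree = d) (hf : f.natDegree ≤ N)
    (h : P ^ n ∣ f) : (Tm c d P) ^ n ∣ Tm c N f := by
  rcases eq_or_ne f 0 with rfl | hf0
  · rw [Tm_zero]
    exact dvd_zero _
  obtain ⟨g, rfl⟩ := h
  have h1 : (P ^ n * g).natDegree = n * d + g.natDegree := by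
    rw [natDegree_mul (left_ne_zero_of_mul hf0) (right_ne_zero_of_mul hf0), natDegree_pow, hP]
  have h2 : N = n * d + (N - n * d) := by omega
  rw [h2, Tm_mul (by rw [natDegree_pow, hP]) (by omega), Tm_pow hP.le]
  exact dvd_mul_right _ _

/-- **D2** -/
theorem dvd_of_dvd_Tm {c : K} {d N n : ℕ} {Q f : K[X]} (hQ : Q.natDegree = d)
    (hf : f.natDegree ≤ N) (h : Q ^ n ∣ Tm c N f) : (Sm c d Q) ^ n ∣ f := by
  rcases eq_or_ne f 0 with rfl | hf0
  · exact dvd_zero _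
  have hT : Tm c N f ≠ 0 := Tm_ne_zero hf0
  have hTd : (Tm c N f).natDegree ≤ N := Tm_natDegree_le hf
  obtain ⟨g, hg⟩ := h
  rw [hg] at hT hTd
  have h1 : (Q ^ n * g).natDegree = n * d + g.natDegree := by
    rw [natDegree_mul (left_ne_zero_of_mul hT) (right_ne_zero_of_mul hT), natDegree_pow, hQ]
  have h2 : N = n * d + (N - n * d) := by omega
  rw [← Sm_Tm c N f, hg, h2, Sm_mul (by rw [natDegree_pow, hQ]) (by omega), Sm_pow hQ.le]
  exact dvd_mul_right _ _

theorem Sm_natDegree {c : K} {Q : K[X]} (h0 : Q.coeff 0 ≠ 0) :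
    (Sm c Q.natDegree Q).natDegree = Q.natDegree := by
  refine le_antisymm (Sm_natDegree_le le_rfl) ?_
  unfold Sm
  rw [natDegree_taylor]
  refine le_natDegree_of_ne_zero ?_
  rw [coeff_reflect, revAt_le le_rfl, Nat.sub_self]
  exact h0

/-- the inverse image of an irreducible polynomial -/
theorem Sm_irreducible {c : K} {Q : K[X]} (hQ : Irreducible Q) (h0 : Q.coeff 0 ≠ 0) :
    Irreducible (Sm c Q.natDegree Q) := by
  have hd := Sm_natDegree (c := c) h0
  have hpos : 0 < Q.natDegree := hQ.natDegree_pos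
  have key : ∀ f g : K[X], f * g = Sm c Q.natDegree Q → f ≠ 0 → g ≠ 0 →
      IsUnit (Tm c f.natDegree f) → IsUnit f := by
    intro f g hfg hf0 hg0 hu
    have h1 : f.natDegree + g.natDegree = Q.natDegree := by
      rw [← natDegree_mul hf0 hg0, hfg, hd]
    have h2 : Tm c f.natDegree f * Tm c g.natDegree g = Q := by
      rw [← Tm_mul le_rfl le_rfl, hfg, h1, Tm_Sm]
    have h3 : Q.natDegree = (Tm c g.natDegree g).natDegree := by
      rw [← h2, natDegree_mul (Tm_ne_zero hf0) (Tm_ne_zero hg0),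
        natDegree_eq_zero_of_isUnit hu, zero_add]
    have h4 : (Tm c g.natDegree g).natDegree ≤ g.natDegree := Tm_natDegree_le le_rfl
    have h5 : f.natDegree = 0 := by omega
    rw [eq_C_of_natDegree_eq_zero h5] at hf0 ⊢
    exact isUnit_C.2 (isUnit_iff_ne_zero.2 (fun h => hf0 (by rw [h, C_0])))
  have hS0 : Sm c Q.natDegree Q ≠ 0 := by
    intro h
    rw [h, natDegree_zero] at hd
    omega
  refine ⟨?_, ?_⟩
  · intro hu
    have := natDegree_eq_zero_of_isUnit hu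
    omega
  · intro f g hfg
    have hf0 : f ≠ 0 := by
      rintro rfl
      exact hS0 (by rw [hfg, zero_mul])
    have hg0 : g ≠ 0 := by
      rintro rfl
      exact hS0 (by rw [hfg, mul_zero])
    have h1 : f.natDegree + g.natDegree = Q.natDegree := by
      rw [← natDegree_mul hf0 hg0, ← hfg, hd]
    have h2 : Q = Tm c f.natDegree f * Tm c g.natDegree g := by
      rw [← Tm_mul le_rfl le_rfl, ← hfg, h1, Tm_Sm]
    rcases hQ.isUnit_or_isUnit h2 with hu | hu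
    · exact Or.inl (key f g hfg.symm hf0 hg0 hu)
    · exact Or.inr (key g f (by rw [mul_comm]; exact hfg.symm) hg0 hf0 hu)

theorem X_coprime {Q : K[X]} (hQ : Irreducible Q) (h0 : Q.coeff 0 ≠ 0) : IsCoprime Q X := by
  refine ((EuclideanDomain.dvd_or_coprime X Q irreducible_X).resolve_left ?_).symm
  rw [X_dvd_iff]
  exact h0

/-- the square part goes over -/
theorem sq_part {c : K} {Q x h : K[X]} {M k : ℕ} (hQ : Irreducible Q) (h0 : Q.coeff 0 ≠ 0)
    (hx : x.natDegree ≤ 2 * M) (hd : (Sm c Q.natDegree Q) ^ k ∣ x - h ^ 2) :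
    ∃ h' : K[X], Q ^ k ∣ Tm c (2 * M) x - h' ^ 2 := by
  set L := h.natDegree with hL
  have hd1 : (x - h ^ 2).natDegree ≤ 2 * M + 2 * L := by
    refine (natDegree_sub_le _ _).trans (max_le (by omega) ?_)
    rw [natDegree_pow]
    omega
  have h1 : Q ^ k ∣ Tm c (2 * M + 2 * L) (x - h ^ 2) := by
    have := dvd_Tm (c := c) (P := Sm c Q.natDegree Q) (Sm_natDegree h0) hd1 hd
    rwa [Tm_Sm] at this
  have h2 : Tm c (2 * M + 2 * L) (x - h ^ 2) =
      Tm c (2 * M) x * X ^ (2 * L) - (Tm c (M + L) h) ^ 2 := by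
    rw [Tm_sub]
    congr 1
    · conv_lhs => rw [← mul_one x]
      rw [Tm_mul hx (by simp), Tm_one]
    · rw [show 2 * M + 2 * L = 2 * (M + L) by ring, Tm_pow (by omega)]
  rw [h2] at h1
  obtain ⟨s, t, hst⟩ : IsCoprime (Q ^ k) (X ^ L : K[X]) := (X_coprime hQ h0).pow
  refine ⟨t * Tm c (M + L) h, ?_⟩
  have e : Tm c (2 * M) x - (t * Tm c (M + L) h) ^ 2 =
      Q ^ k * (s * Tm c (2 * M) x * (1 + t * X ^ L)) +
        t ^ 2 * (Tm c (2 * M) x * X ^ (2 * L) - (Tm c (M + L) h) ^ 2) := by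
    rw [show (X : K[X]) ^ (2 * L) = (X ^ L) ^ 2 by rw [← pow_mul, mul_comm]]
    linear_combination (-(Tm c (2 * M) x * (1 + t * X ^ L))) * hst
  rw [e]
  exact dvd_add (dvd_mul_right _ _) (Dvd.dvd.mul_left h1 _)

theorem mem_span_pow {P x : K[X]} {n : ℕ} : x ∈ (Ideal.span {P}) ^ n ↔ P ^ n ∣ x := by
  rw [Ideal.span_singleton_pow, Ideal.mem_span_singleton]

theorem val_Tm {c : K} {Q x : K[X]} {N n : ℕ} (h0 : Q.coeff 0 ≠ 0) (hx : x.natDegree ≤ N)
    (h : Val (Ideal.span {Sm c Q.natDegree Q}) x n) : Val (Ideal.span {Q}) (Tm c N x) n := by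
  obtain ⟨h1, h2⟩ := h
  rw [mem_span_pow] at h1 h2
  constructor
  · rw [mem_span_pow]
    have := dvd_Tm (c := c) (P := Sm c Q.natDegree Q) (Sm_natDegree h0) hx h1
    rwa [Tm_Sm] at this
  · rw [mem_span_pow]
    intro h3
    exact h2 (dvd_of_dvd_Tm rfl hx h3)

/-- **MLC.** the local condition goes over -/
theorem lc_Tm {c : K} {Q a b : K[X]} {M : ℕ} (hQ : Irreducible Q) (h0 : Q.coeff 0 ≠ 0)
    (ha : a.natDegree ≤ 2 * M) (hb : b.natDegree ≤ 2 * M)
    (h : LC (Ideal.span {Sm c Q.natDegree Q}) a b) :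
    LC (Ideal.span {Q}) (Tm c (2 * M) a) (Tm c (2 * M) b) := by
  obtain ⟨α, β, hα, hβ, h⟩ := h
  refine ⟨α, β, val_Tm h0 ha hα, val_Tm h0 hb hβ, ?_⟩
  rcases h with h | ⟨h1, h2, g, hg⟩ | ⟨h1, h2, g, hg⟩ | ⟨h1, h2, g, hg⟩
  · exact Or.inl h
  · rw [mem_span_pow] at hg
    obtain ⟨g', hg'⟩ := sq_part hQ h0 hb hg
    exact Or.inr (Or.inl ⟨h1, h2, g', mem_span_pow.2 hg'⟩)
  · rw [mem_span_pow] at hg
    obtain ⟨g', hg'⟩ := sq_part hQ h0 ha hg
    exact Or.inr (Or.inr (Or.inl ⟨h1, h2, g', mem_span_pow.2 hg'⟩))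
  · rw [mem_span_pow] at hg
    have hab : (-(a * b)).natDegree ≤ 2 * (2 * M) := by
      rw [natDegree_neg]
      refine natDegree_mul_le.trans ?_
      omega
    obtain ⟨g', hg'⟩ := sq_part hQ h0 hab hg
    refine Or.inr (Or.inr (Or.inr ⟨h1, h2, g', mem_span_pow.2 ?_⟩))
    rwa [Tm_neg, show 2 * (2 * M) = 2 * M + 2 * M by ring, Tm_mul ha hb] at hg'

/-- **MFAC.** the irreducible factors of the transformed pair -/
theorem moeb_factors {dm : ℕ} (hdm : 1 ≤ dm) {c : K} {a b : K[X]} {M : ℕ} (ha0 : a ≠ 0)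
    (hb0 : b ≠ 0) (ha : a.natDegree ≤ 2 * M) (hb : b.natDegree ≤ 2 * M)
    (h : ∀ P : K[X], Irreducible P → P ∣ a * b → P.natDegree ≤ dm ∨ LC (Ideal.span {P}) a b)
    (Q : K[X]) (hQ : Irreducible Q) (hd : Q ∣ Tm c (2 * M) a * Tm c (2 * M) b) :
    Q.natDegree ≤ dm ∨ LC (Ideal.span {Q}) (Tm c (2 * M) a) (Tm c (2 * M) b) := by
  by_cases h0 : Q.coeff 0 = 0
  · left
    have h1 : Associated X Q := irreducible_X.associated_of_dvd hQ (X_dvd_iff.2 h0)
    have h2 : Q.natDegree = 1 := by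
      obtain ⟨u, hu⟩ := h1
      have hu0 : (u : K[X]) ≠ 0 := u.ne_zero
      rw [← hu, natDegree_mul X_ne_zero hu0, natDegree_X, natDegree_eq_zero_of_isUnit u.isUnit]
    omega
  · have hab : (a * b).natDegree ≤ 2 * M + 2 * M := natDegree_mul_le.trans (by omega)
    have h1 : (Sm c Q.natDegree Q) ^ 1 ∣ a * b := by
      refine dvd_of_dvd_Tm rfl hab ?_
      rw [pow_one, Tm_mul ha hb]
      exact hd
    rw [pow_one] at h1
    rcases h _ (Sm_irreducible hQ h0) h1 with h2 | h2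
    · left
      rwa [Sm_natDegree h0] at h2
    · right
      exact lc_Tm hQ h0 ha hb h2

end Pool.Agent.Helper56.CB
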