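import Pool.Agent.Helper4.CB.Defs
import Pool.Agent.Helper16.CB.Defs

/-!
# CB, T-TRI, piece F: the local condition at one place
-/

set_option autoImplicit false

namespace Pool.Agent.Helper56.CB

open NumberField IsDedekindDomain Pool.Agent.Helper16.CB Pool.Agent.Helper4.CB WithZero

variable {K : Type} [Field K] [NumberField K]

theorem le_one_of_sq {x : ℤᵐ⁰} (h : x ^ 2 ≤ 1) : x ≤ 1 := by
  by_contra hc
  exact absurd h (not_le.2 (one_lt_pow₀ (not_le.1 hc) two_ne_zero))

theorem lt_exp_succ {x : ℤᵐ⁰} (n : ℕ) (h : x < exp (-(n : ℤ))) :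
    x ≤ exp (-((n + 1 : ℕ) : ℤ)) := by
  rcases eq_or_ne x 0 with rfl | hx
  · exact zero_le
  · rw [← exp_log hx] at h ⊢
    rw [exp_lt_exp] at h
    rw [exp_le_exp]
    push_cast
    omega

theorem val_exp (p : Pl K) {A : 𝓞 K} {α : ℕ} (h : Val p.asIdeal A α) :
    p.valuation K (A : K) = exp (-(α : ℤ)) := by
  obtain ⟨h1, h2⟩ := h
  have e1 : p.valuation K (A : K) = p.intValuation A := HeightOneSpectrum.valuation_of_algebraMap p A
  rw [← p.intValuation_le_pow_iff_mem] at h1 h2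
  have hA : A ≠ 0 := by
    rintro rfl
    exact h2 (by simp)
  rw [e1]
  rw [p.intValuation_eq_exp_neg_multiplicity hA] at h1 h2 ⊢
  rw [exp_le_exp] at h1 h2
  congr 1
  push_cast at h1 h2
  omega

theorem exists_Val (p : Pl K) {A : 𝓞 K} (hA : A ≠ 0) : ∃ α : ℕ, Val p.asIdeal A α := by
  refine ⟨multiplicity p.asIdeal (Ideal.span {A}), ?_, ?_⟩
  · rw [← p.intValuation_le_pow_iff_mem, p.intValuation_eq_exp_neg_multiplicity hA]
  · rw [← p.intValuation_le_pow_iff_mem, p.intValuation_eq_exp_neg_multiplicity hA, exp_le_exp]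
    push_cast
    omega

/-- the square part at one place -/
theorem sq_loc (p : Pl K) {B : 𝓞 K} {τ b σ : K} {β : ℕ} (hβ : Val p.asIdeal B β)
    (hB : (B : K) = τ ^ 2 * b) (hb : p.valuation K b = 1)
    (hσ : p.valuation K (b - σ ^ 2) < 1) : ∃ h : 𝓞 K, B - h ^ 2 ∈ p.asIdeal ^ (β + 1) := by
  have hvB := val_exp p hβ
  have hσ1 : p.valuation K σ = 1 := by
    have h1 : p.valuation K (σ ^ 2) = 1 := by
      have h2 : σ ^ 2 = b - (b - σ ^ 2) := by ring
      rw [h2, Valuation.map_sub_eq_of_lt_left _ (by rw [hb]; exact hσ), hb]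
    rw [map_pow] at h1
    exact sq_eq_one.1 h1
  have hτB : p.valuation K τ ^ 2 = p.valuation K (B : K) := by
    rw [hB, map_mul, map_pow, hb, mul_one]
  have hB1 : p.valuation K (B : K) ≤ 1 := HeightOneSpectrum.valuation_le_one p B
  have hτ1 : p.valuation K τ ≤ 1 := by
    rw [← hτB] at hB1
    exact le_one_of_sq hB1
  have hτσ : p.valuation K (τ * σ) ≤ 1 := by
    rw [map_mul, hσ1, mul_one]
    exact hτ1
  obtain ⟨h, hh⟩ := p.exists_valuation_sub_lt_of_integer (K := K) hτσ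
    (Units.mk0 (exp (-(β : ℤ))) (exp_ne_zero))
  refine ⟨h, ?_⟩
  rw [← p.intValuation_le_pow_iff_mem, ← HeightOneSpectrum.valuation_of_algebraMap (K := K) p]
  refine lt_exp_succ β ?_
  have e : algebraMap (𝓞 K) K (B - h ^ 2) = τ ^ 2 * (b - σ ^ 2) -
      (algebraMap (𝓞 K) K h - τ * σ) * (algebraMap (𝓞 K) K h + τ * σ) := by
    rw [map_sub, map_pow]
    have : algebraMap (𝓞 K) K B = τ ^ 2 * b := hB
    rw [this]
    ring
  show p.valuation K (algebraMap (𝓞 K) K (B - h ^ 2)) < _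
  rw [e]
  refine Valuation.map_sub_lt _ ?_ ?_
  · rw [map_mul, map_pow, hτB, hvB]
    exact mul_lt_of_lt_one_right (exp_pos) hσ
  · rw [map_mul]
    have h1 : p.valuation K (algebraMap (𝓞 K) K h + τ * σ) ≤ 1 :=
      (Valuation.map_add _ _ _).trans (max_le (HeightOneSpectrum.valuation_le_one p h) hτσ)
    exact lt_of_le_of_lt (mul_le_of_le_one_right' h1) hh

/-- **F1.** the local condition at one place from the tame symbol -/
theorem lc_loc (p : Pl K) {A B : 𝓞 K} (hA : A ≠ 0) (hB : B ≠ 0) {c d z a1 b1 g h : K} {e f : ℕ}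
    (hAe : (A : K) = c ^ 2 * (z ^ e * a1)) (hBe : (B : K) = d ^ 2 * (z ^ f * b1))
    (ha1 : p.valuation K a1 = 1) (hb1 : p.valuation K b1 = 1) (hg : p.valuation K g = 1)
    (hh : p.valuation K (g ^ 2 * ((-1) ^ (e * f) * (a1 ^ f * b1 ^ e)) - h ^ 2) < 1) :
    LC p.asIdeal A B := by
  obtain ⟨α, hα⟩ := exists_Val p hA
  obtain ⟨β, hβ⟩ := exists_Val p hB
  have hAK : (A : K) ≠ 0 := by simpa using hA
  have hBK : (B : K) ≠ 0 := by simpa using hB
  have hc : c ≠ 0 := by
    rintro rfl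
    exact hAK (by rw [hAe]; ring)
  have hd : d ≠ 0 := by
    rintro rfl
    exact hBK (by rw [hBe]; ring)
  have hu0 : ∀ x : K, p.valuation K x = 1 → x ≠ 0 := by
    rintro x hx rfl
    rw [map_zero] at hx
    exact zero_ne_one hx
  set lc : ℤ := log (p.valuation K c) with hlc
  set ld : ℤ := log (p.valuation K d) with hld
  set lz : ℤ := log (p.valuation K z) with hlz
  have hvc : p.valuation K c ≠ 0 := (Valuation.ne_zero_iff _).2 hc
  have hvd : p.valuation K d ≠ 0 := (Valuation.ne_zero_iff _).2 hd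
  have e1 : -(α : ℤ) = 2 * lc + e * lz := by
    have h1 := val_exp p hα
    have h2 : p.valuation K z ^ e ≠ 0 := by
      rw [← map_pow]
      refine (Valuation.ne_zero_iff _).2 ?_
      intro h0
      exact hAK (by rw [hAe, h0]; ring)
    rw [hAe, map_mul, map_mul, map_pow, map_pow, ha1, mul_one] at h1
    have h3 := congrArg log h1
    rw [log_exp, log_mul (pow_ne_zero _ hvc) h2, log_pow, log_pow] at h3
    simp only [nsmul_eq_mul] at h3
    rw [← h3]
    push_cast
    ring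
  have e2 : -(β : ℤ) = 2 * ld + f * lz := by
    have h1 := val_exp p hβ
    have h2 : p.valuation K z ^ f ≠ 0 := by
      rw [← map_pow]
      refine (Valuation.ne_zero_iff _).2 ?_
      intro h0
      exact hBK (by rw [hBe, h0]; ring)
    rw [hBe, map_mul, map_mul, map_pow, map_pow, hb1, mul_one] at h1
    have h3 := congrArg log h1
    rw [log_exp, log_mul (pow_ne_zero _ hvd) h2, log_pow, log_pow] at h3
    simp only [nsmul_eq_mul] at h3
    rw [← h3]
    push_cast
    ring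
  refine ⟨α, β, hα, hβ, ?_⟩
  have hus : ∀ x s : K, p.valuation K s = 1 → p.valuation K (x * s ^ 2 - h ^ 2) < 1 →
      p.valuation K (x - (h / s) ^ 2) < 1 := by
    intro x s hs hx
    have hs0 := hu0 s hs
    have e3 : x - (h / s) ^ 2 = (x * s ^ 2 - h ^ 2) * (s⁻¹) ^ 2 := by
      field_simp
    rw [e3, map_mul, map_pow, map_inv₀, hs, inv_one, one_pow, mul_one]
    exact hx
  rcases Nat.even_or_odd e with he | he <;> rcases Nat.even_or_odd f with hf | hf
  · left
    obtain ⟨e', rfl⟩ := he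
    obtain ⟨f', rfl⟩ := hf
    push_cast at e1 e2
    constructor
    · rw [← Int.even_coe_nat]
      exact ⟨-(lc + e' * lz), by linarith⟩
    · rw [← Int.even_coe_nat]
      exact ⟨-(ld + f' * lz), by linarith⟩
  · -- `e` even, `f` odd
    obtain ⟨e', rfl⟩ := he
    obtain ⟨f', rfl⟩ := hf
    have hα2 : Even α := by
      rw [← Int.even_coe_nat]
      push_cast at e1
      exact ⟨-(lc + e' * lz), by linarith⟩
    rcases Nat.even_or_odd β with hβ2 | hβ2
    · exact Or.inl ⟨hα2, hβ2⟩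
    refine Or.inr (Or.inr (Or.inl ⟨hα2, Nat.not_even_iff_odd.2 hβ2, ?_⟩))
    have hs1 : p.valuation K (g * (a1 ^ f' * b1 ^ e')) = 1 := by
      rw [map_mul, map_mul, map_pow, map_pow, ha1, hb1, hg]
      simp
    refine sq_loc p hα (τ := c * z ^ e') (b := a1) (σ := h / (g * (a1 ^ f' * b1 ^ e'))) ?_ ha1
      (hus _ _ hs1 ?_)
    · rw [hAe]
      ring
    · have e3 : a1 * (g * (a1 ^ f' * b1 ^ e')) ^ 2 - h ^ 2 =
          g ^ 2 * ((-1) ^ ((e' + e') * (2 * f' + 1)) * (a1 ^ (2 * f' + 1) * b1 ^ (e' + e'))) -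
            h ^ 2 := by
        rw [show (e' + e') * (2 * f' + 1) = 2 * (e' * (2 * f' + 1)) by ring, pow_mul (-1 : K) 2]
        ring
      rw [e3]
      exact hh
  · -- `e` odd, `f` even
    obtain ⟨e', rfl⟩ := he
    obtain ⟨f', rfl⟩ := hf
    have hβ2 : Even β := by
      rw [← Int.even_coe_nat]
      push_cast at e2
      exact ⟨-(ld + f' * lz), by linarith⟩
    rcases Nat.even_or_odd α with hα2 | hα2
    · exact Or.inl ⟨hα2, hβ2⟩
    refine Or.inr (Or.inl ⟨Nat.not_even_iff_odd.2 hα2, hβ2, ?_⟩)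
    have hs1 : p.valuation K (g * (a1 ^ f' * b1 ^ e')) = 1 := by
      rw [map_mul, map_mul, map_pow, map_pow, ha1, hb1, hg]
      simp
    refine sq_loc p hβ (τ := d * z ^ f') (b := b1) (σ := h / (g * (a1 ^ f' * b1 ^ e'))) ?_ hb1
      (hus _ _ hs1 ?_)
    · rw [hBe]
      ring
    · have e3 : b1 * (g * (a1 ^ f' * b1 ^ e')) ^ 2 - h ^ 2 =
          g ^ 2 * ((-1) ^ ((2 * e' + 1) * (f' + f')) * (a1 ^ (f' + f') * b1 ^ (2 * e' + 1))) -
            h ^ 2 := by
        rw [show (2 * e' + 1) * (f' + f') = 2 * ((2 * e' + 1) * f') by ring, pow_mul (-1 : K) 2]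
        ring
      rw [e3]
      exact hh
  · -- both odd
    obtain ⟨e', rfl⟩ := he
    obtain ⟨f', rfl⟩ := hf
    push_cast at e1 e2
    have hcast : ((-(A * B) : 𝓞 K) : K) = -((A : K) * (B : K)) := by simp
    have hAB : ((-(A * B) : 𝓞 K) : K) = (c * d * z ^ (e' + f' + 1)) ^ 2 * (-(a1 * b1)) := by
      rw [hcast, hAe, hBe]
      ring
    rcases Int.even_or_odd lz with hz2 | hz2
    · left
      obtain ⟨k, hk⟩ := hz2
      constructor
      · rw [← Int.even_coe_nat]
        exact ⟨-(lc + (2 * e' + 1) * k), by rw [hk] at e1; linarith⟩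
      · rw [← Int.even_coe_nat]
        exact ⟨-(ld + (2 * f' + 1) * k), by rw [hk] at e2; linarith⟩
    · obtain ⟨k, hk⟩ := hz2
      have hα2 : ¬ Even α := by
        rw [← Int.even_coe_nat, Int.not_even_iff_odd]
        exact ⟨-(lc + (2 * e' + 1) * k + e' + 1), by rw [hk] at e1; linarith⟩
      have hβ2 : ¬ Even β := by
        rw [← Int.even_coe_nat, Int.not_even_iff_odd]
        exact ⟨-(ld + (2 * f' + 1) * k + f' + 1), by rw [hk] at e2; linarith⟩
      refine Or.inr (Or.inr (Or.inr ⟨hα2, hβ2, ?_⟩))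
      have hab1 : p.valuation K (-(a1 * b1)) = 1 := by
        rw [Valuation.map_neg, map_mul, ha1, hb1, mul_one]
      have hs1 : p.valuation K (g * (a1 ^ f' * b1 ^ e')) = 1 := by
        rw [map_mul, map_mul, map_pow, map_pow, ha1, hb1, hg]
        simp
      have hvAB : Val p.asIdeal (-(A * B)) (α + β) := by
        have h1 := val_exp p hα
        have h2 := val_exp p hβ
        have hAB0 : -(A * B) ≠ 0 := neg_ne_zero.2 (mul_ne_zero hA hB)
        obtain ⟨γ, hγ⟩ := exists_Val p hAB0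
        have h3 := val_exp p hγ
        rw [hcast, Valuation.map_neg, map_mul, h1, h2, ← exp_add, exp_inj] at h3
        have h4 : α + β = γ := by
          have : -(α : ℤ) + -(β : ℤ) = -(γ : ℤ) := h3
          omega
        rw [h4]
        exact hγ
      refine sq_loc p hvAB (τ := c * d * z ^ (e' + f' + 1)) (b := -(a1 * b1))
        (σ := h / (g * (a1 ^ f' * b1 ^ e'))) hAB hab1 (hus _ _ hs1 ?_)
      have e3 : -(a1 * b1) * (g * (a1 ^ f' * b1 ^ e')) ^ 2 - h ^ 2 =
          g ^ 2 * ((-1) ^ ((2 * e' + 1) * (2 * f' + 1)) *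
            (a1 ^ (2 * f' + 1) * b1 ^ (2 * e' + 1))) - h ^ 2 := by
        rw [show (2 * e' + 1) * (2 * f' + 1) = 2 * (2 * e' * f' + e' + f') + 1 by ring,
          pow_succ (-1 : K), pow_mul (-1 : K) 2]
        ring
      rw [e3]
      exact hh

end Pool.Agent.Helper56.CB
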