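import Mathlib

/-!
# CB, piece END: a conic with a point has many affine points
-/

set_option autoImplicit false

namespace Pool.Agent.Helper56.CB

open Polynomial

/-- finitely many nonzero polynomials over an infinite field have a common non-root -/
theorem exists_nonroot {L : Type} [Field L] [CharZero L] (S : Finset L[X])
    (hS : ∀ p ∈ S, p ≠ 0) : ∃ t : L, ∀ p ∈ S, p.eval t ≠ 0 := by
  classical
  have hne : (∏ p ∈ S, p) ≠ 0 := Finset.prod_ne_zero_iff.2 hS
  haveI : Infinite L := CharZero.infinite L
  obtain ⟨t, ht⟩ := Infinite.exists_notMem_finset (∏ p ∈ S, p).roots.toFinset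
  refine ⟨t, fun p hp h0 => ht ?_⟩
  rw [Multiset.mem_toFinset, mem_roots hne, IsRoot.def, eval_prod]
  exact Finset.prod_eq_zero hp h0

/-- the case of an affine point -/
theorem conic_affine {L : Type} [Field L] [CharZero L] {a b : L} (ha : a ≠ 0) (hb : b ≠ 0)
    {x y : L} (h : x ^ 2 = a * y ^ 2 + b) (Z : Finset L) :
    ∃ x' y' : L, y' ∉ Z ∧ x' ^ 2 = a * y' ^ 2 + b := by
  classical
  obtain ⟨m, hm⟩ := exists_nonroot
    (insert (X ^ 2 - C a) (Z.image fun w => C (y - w) * X ^ 2 - C (2 * x) * X + C (a * (y + w))))
    (by
      intro p hp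
      rcases Finset.mem_insert.1 hp with rfl | hp
      · exact X_pow_sub_C_ne_zero (by norm_num) a
      · obtain ⟨w, -, rfl⟩ := Finset.mem_image.1 hp
        intro h0
        have c2 := congrArg (fun q : L[X] => q.coeff 2) h0
        have c1 := congrArg (fun q : L[X] => q.coeff 1) h0
        have c0 := congrArg (fun q : L[X] => q.coeff 0) h0
        simp only [coeff_add, coeff_sub, coeff_C_mul, coeff_X_pow, coeff_X, coeff_C,
          coeff_zero] at c2 c1 c0
        norm_num at c2 c1 c0
        have hyw : y = w := by linear_combination c2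
        have hx0 : x = 0 := c1
        subst hyw
        rcases c0 with hc | hc
        · exact ha hc
        · have hy0 : y = 0 := by
            have : (2 : L) * y = 0 := by linear_combination hc
            rcases mul_eq_zero.1 this with h2 | h2
            · exact absurd h2 two_ne_zero
            · exact h2
          apply hb
          rw [hx0, hy0] at h
          linear_combination -h)
  have hm0 : m ^ 2 - a ≠ 0 := by
    simpa using hm _ (Finset.mem_insert_self _ _)
  have hmw : ∀ w ∈ Z, (y - w) * m ^ 2 - 2 * x * m + a * (y + w) ≠ 0 := by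
    intro w hw
    have := hm _ (Finset.mem_insert_of_mem (Finset.mem_image_of_mem _ hw))
    simpa using this
  refine ⟨x + m * ((2 * a * y - 2 * m * x) / (m ^ 2 - a)), y + (2 * a * y - 2 * m * x) / (m ^ 2 - a),
    fun hw => hmw _ hw ?_, ?_⟩
  · field_simp
    ring
  · field_simp
    linear_combination (m ^ 2 - a) ^ 2 * h

/-- **CONIC.** a conic with a point has many affine points -/
theorem conic_points {L : Type} [Field L] [CharZero L] {a b : L} (ha : a ≠ 0) (hb : b ≠ 0)
    {x y z : L} (h0 : x ≠ 0 ∨ y ≠ 0 ∨ z ≠ 0) (h : x ^ 2 = a * y ^ 2 + b * z ^ 2)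
    (Z : Finset L) : ∃ x' y' : L, y' ∉ Z ∧ x' ^ 2 = a * y' ^ 2 + b := by
  classical
  by_cases hz : z = 0
  · subst hz
    have hy : y ≠ 0 := by
      rintro rfl
      have hx : x = 0 := by
        have : x ^ 2 = 0 := by linear_combination h
        exact pow_eq_zero_iff (two_ne_zero) |>.1 this
      rcases h0 with h1 | h1 | h1
      · exact h1 hx
      · exact h1 rfl
      · exact h1 rfl
    have hx : x ≠ 0 := by
      rintro rfl
      have : a * y ^ 2 = 0 := by linear_combination -h
      rcases mul_eq_zero.1 this with h1 | h1
      · exact ha h1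
      · exact hy (pow_eq_zero_iff (two_ne_zero) |>.1 h1)
    obtain ⟨t, ht⟩ := exists_nonroot
      (insert (X : L[X]) (Z.image fun w => X ^ 2 + C (2 * (x / y) * w) * X - C b))
      (by
        intro p hp
        rcases Finset.mem_insert.1 hp with rfl | hp
        · exact X_ne_zero
        · obtain ⟨w, -, rfl⟩ := Finset.mem_image.1 hp
          intro h0
          have c2 := congrArg (fun q : L[X] => q.coeff 2) h0
          simp [coeff_X, coeff_C] at c2)
    have ht0 : t ≠ 0 := by simpa using ht _ (Finset.mem_insert_self _ _)
    have htw : ∀ w ∈ Z, t ^ 2 + 2 * (x / y) * w * t - b ≠ 0 := by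
      intro w hw
      have := ht _ (Finset.mem_insert_of_mem (Finset.mem_image_of_mem _ hw))
      simpa using this
    have hc : (x / y) ^ 2 = a := by
      field_simp
      linear_combination h
    set c := x / y with hcd
    have hc0 : c ≠ 0 := div_ne_zero hx hy
    refine ⟨(b / t + t) / 2, (b / t - t) / (2 * c), fun hw => htw _ hw ?_, ?_⟩
    · field_simp
      ring
    · rw [← hc]
      field_simp
      ring
  · refine conic_affine (x := x / z) (y := y / z) ha hb ?_ Z
    field_simp
    linear_combination h

end Pool.Agent.Helper56.CB
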