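import Pool.Agent.Helper16.CB.Defs

/-!
# CB, piece END: the local condition at a free factor

If the unit part of the tame symbol of `(a, β b)` at `F i` is a square modulo `F i` up to a constant
and `β` is a square, then the local condition `LC` holds at each irreducible factor of `F i`.
-/

set_option autoImplicit false

namespace Pool.Agent.Helper56.CB

open Polynomial Pool.Agent.Helper16.CB

variable {M : Type*} [Field M]

theorem mem_pow_iff {P x : M[X]} {n : ℕ} : x ∈ (Ideal.span {P}) ^ n ↔ P ^ n ∣ x := by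
  rw [Ideal.span_singleton_pow, Ideal.mem_span_singleton]

theorem val_of {P x : M[X]} (hP : P ≠ 0) (hx : ¬ P ∣ x) (n : ℕ) :
    Val (Ideal.span {P}) (P ^ n * x) n := by
  constructor
  · rw [mem_pow_iff]
    exact dvd_mul_right _ _
  · rw [mem_pow_iff, pow_succ]
    intro h
    exact hx ((mul_dvd_mul_iff_left (pow_ne_zero n hP)).1 h)

/-- cancel a square prime to `P` -/
theorem sq_cancel {P x y h : M[X]} (hP : Irreducible P) (hy : ¬ P ∣ y)
    (hd : P ∣ x * y ^ 2 - h ^ 2) : ∃ g : M[X], P ∣ x - g ^ 2 := by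
  have hc : IsCoprime P y := (EuclideanDomain.dvd_or_coprime P y hP).resolve_left hy
  obtain ⟨s, z, hz⟩ := hc
  refine ⟨h * z, ?_⟩
  have e : x - (h * z) ^ 2 = P * (s * x * (1 + z * y)) + z ^ 2 * (x * y ^ 2 - h ^ 2) := by
    linear_combination (-(x * (1 + z * y))) * hz
  rw [e]
  exact dvd_add (dvd_mul_right _ _) (Dvd.dvd.mul_left hd _)

/-- **LCF.** the local condition at a free factor -/
theorem lc_of_free {k : ℕ} (F : Fin k → M[X]) (i : Fin k)
    (hco : ∀ j, j ≠ i → IsCoprime (F i) (F j)) {α β γ c : M} (hα : α ≠ 0) (hβ : β ≠ 0)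
    (hγ : γ ^ 2 = β) (hc : c ≠ 0) (e f : Fin k → ℕ) (h : M[X])
    (hd : F i ∣ C (c ^ 2) * ((-1) ^ (e i * f i) *
      (C α * ∏ j ∈ Finset.univ.erase i, F j ^ e j) ^ f i *
      (C β * ∏ j ∈ Finset.univ.erase i, F j ^ f j) ^ e i) - h ^ 2)
    (P : M[X]) (hP : Irreducible P) (hPF : P ∣ F i) (hF : F i ≠ 0) :
    LC (Ideal.span {P}) (C α * ∏ j, F j ^ e j) (∏ j, F j ^ f j) := by
  classical
  have hP0 : P ≠ 0 := hP.ne_zero
  have hpr : Prime P := hP.prime
  have hγ0 : γ ≠ 0 := by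
    rintro rfl
    exact hβ (by rw [← hγ]; ring)
  have hCu : ∀ t : M, t ≠ 0 → ¬ P ∣ C t := fun t ht hdv =>
    hP.not_isUnit (isUnit_of_dvd_unit hdv (isUnit_C.2 (isUnit_iff_ne_zero.2 ht)))
  have hprod : ∀ n : Fin k → ℕ, ¬ P ∣ ∏ j ∈ Finset.univ.erase i, F j ^ n j := by
    intro n hdv
    obtain ⟨j, hj, hj'⟩ := (Prime.dvd_finset_prod_iff hpr _).1 hdv
    have h1 : P ∣ F j := hpr.dvd_of_dvd_pow hj'
    exact hP.not_isUnit ((hco j (Finset.ne_of_mem_erase hj)).isUnit_of_dvd' hPF h1)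
  set A : M[X] := C α * ∏ j ∈ Finset.univ.erase i, F j ^ e j with hA
  set B : M[X] := ∏ j ∈ Finset.univ.erase i, F j ^ f j with hB
  have hPA : ¬ P ∣ A := fun hdv => (hpr.dvd_or_dvd hdv).elim (hCu α hα) (hprod e)
  have hPB : ¬ P ∣ B := hprod f
  have ha : C α * ∏ j, F j ^ e j = F i ^ e i * A := by
    rw [hA, ← Finset.mul_prod_erase Finset.univ (fun j => F j ^ e j) (Finset.mem_univ i)]
    ring
  have hb : ∏ j, F j ^ f j = F i ^ f i * B := by
    rw [hB, ← Finset.mul_prod_erase Finset.univ (fun j => F j ^ f j) (Finset.mem_univ i)]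
  rw [ha, hb]
  have hfm : FiniteMultiplicity P (F i) := FiniteMultiplicity.of_prime_left hpr hF
  obtain ⟨G, hG, hPG⟩ := hfm.exists_eq_pow_mul_and_not_dvd
  set w := multiplicity P (F i) with hw
  have hPD : P ∣ C (c ^ 2) * ((-1) ^ (e i * f i) * A ^ f i * (C β * B) ^ e i) - h ^ 2 :=
    hPF.trans hd
  have hnd : ∀ (x y : M[X]), ¬ P ∣ x → ¬ P ∣ y → ¬ P ∣ x * y :=
    fun x y hx hy hxy => (hpr.dvd_or_dvd hxy).elim hx hy
  have hnp : ∀ (x : M[X]) (n : ℕ), ¬ P ∣ x → ¬ P ∣ x ^ n :=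
    fun x n hx hxn => hx (hpr.dvd_of_dvd_pow hxn)
  have va : Val (Ideal.span {P}) (F i ^ e i * A) (w * e i) := by
    have : F i ^ e i * A = P ^ (w * e i) * (G ^ e i * A) := by
      conv_lhs => rw [hG]
      rw [mul_pow, ← pow_mul]
      ring
    rw [this]
    exact val_of hP0 (hnd _ _ (hnp _ _ hPG) hPA) _
  have vb : Val (Ideal.span {P}) (F i ^ f i * B) (w * f i) := by
    have : F i ^ f i * B = P ^ (w * f i) * (G ^ f i * B) := by
      conv_lhs => rw [hG]
      rw [mul_pow, ← pow_mul]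
      ring
    rw [this]
    exact val_of hP0 (hnd _ _ (hnp _ _ hPG) hPB) _
  have hPw : ∀ n : ℕ, P ^ (w * n) ∣ F i ^ n := by
    intro n
    conv_rhs => rw [hG]
    rw [mul_pow, ← pow_mul]
    exact dvd_mul_right _ _
  refine ⟨w * e i, w * f i, va, vb, ?_⟩
  rcases Nat.even_or_odd w with hwe | hwo
  · exact Or.inl ⟨hwe.mul_right _, hwe.mul_right _⟩
  rcases Nat.even_or_odd (e i) with he | he <;> rcases Nat.even_or_odd (f i) with hf | hf
  · exact Or.inl ⟨he.mul_left _, hf.mul_left _⟩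
  · -- `e` even, `f` odd
    refine Or.inr (Or.inr (Or.inl ⟨he.mul_left _, Nat.not_even_iff_odd.2 (hwo.mul hf), ?_⟩))
    obtain ⟨e', he'⟩ := he
    obtain ⟨f', hf'⟩ := hf
    obtain ⟨g, hg⟩ := sq_cancel (x := A) (y := C c * (A ^ f' * (C β * B) ^ e')) (h := h) hP
      (hnd _ _ (hCu c hc) (hnd _ _ (hnp _ _ hPA) (hnp _ _ (hnd _ _ (hCu β hβ) hPB)))) (by
        have e1 : A * (C c * (A ^ f' * (C β * B) ^ e')) ^ 2 - h ^ 2 =
            C (c ^ 2) * ((-1) ^ (e i * f i) * A ^ f i * (C β * B) ^ e i) - h ^ 2 := by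
          rw [he', hf', C_pow, show (e' + e') * (2 * f' + 1) = 2 * (e' * (2 * f' + 1)) by ring,
            pow_mul (-1 : M[X]) 2]
          ring
        rw [e1]
        exact hPD)
    refine ⟨F i ^ e' * g, ?_⟩
    rw [mem_pow_iff]
    have e2 : F i ^ e i * A - (F i ^ e' * g) ^ 2 = F i ^ e i * (A - g ^ 2) := by
      rw [he']
      ring
    rw [e2, pow_succ]
    exact mul_dvd_mul (hPw _) hg
  · -- `e` odd, `f` even
    refine Or.inr (Or.inl ⟨Nat.not_even_iff_odd.2 (hwo.mul he), hf.mul_left _, ?_⟩)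
    obtain ⟨e', he'⟩ := he
    obtain ⟨f', hf'⟩ := hf
    obtain ⟨g, hg⟩ := sq_cancel (x := B) (y := C c * (A ^ f' * (C β * B) ^ e') * C γ) (h := h) hP
      (hnd _ _ (hnd _ _ (hCu c hc) (hnd _ _ (hnp _ _ hPA) (hnp _ _ (hnd _ _ (hCu β hβ) hPB))))
        (hCu γ hγ0)) (by
        have e1 : B * (C c * (A ^ f' * (C β * B) ^ e') * C γ) ^ 2 - h ^ 2 =
            C (c ^ 2) * ((-1) ^ (e i * f i) * A ^ f i * (C β * B) ^ e i) - h ^ 2 := by
          have hγ' : C γ ^ 2 = C β := by rw [← C_pow, hγ]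
          rw [he', hf', C_pow, show (2 * e' + 1) * (f' + f') = 2 * ((2 * e' + 1) * f') by ring,
            pow_mul (-1 : M[X]) 2]
          rw [mul_pow, hγ']
          ring
        rw [e1]
        exact hPD)
    refine ⟨F i ^ f' * g, ?_⟩
    rw [mem_pow_iff]
    have e2 : F i ^ f i * B - (F i ^ f' * g) ^ 2 = F i ^ f i * (B - g ^ 2) := by
      rw [hf']
      ring
    rw [e2, pow_succ]
    exact mul_dvd_mul (hPw _) hg
  · -- both odd
    refine Or.inr (Or.inr (Or.inr ⟨Nat.not_even_iff_odd.2 (hwo.mul he),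
      Nat.not_even_iff_odd.2 (hwo.mul hf), ?_⟩))
    obtain ⟨e', he'⟩ := he
    obtain ⟨f', hf'⟩ := hf
    obtain ⟨g, hg⟩ := sq_cancel (x := -(A * B)) (y := C c * (A ^ f' * (C β * B) ^ e') * C γ)
      (h := h) hP
      (hnd _ _ (hnd _ _ (hCu c hc) (hnd _ _ (hnp _ _ hPA) (hnp _ _ (hnd _ _ (hCu β hβ) hPB))))
        (hCu γ hγ0)) (by
        have e1 : -(A * B) * (C c * (A ^ f' * (C β * B) ^ e') * C γ) ^ 2 - h ^ 2 =
            C (c ^ 2) * ((-1) ^ (e i * f i) * A ^ f i * (C β * B) ^ e i) - h ^ 2 := by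
          have hγ' : C γ ^ 2 = C β := by rw [← C_pow, hγ]
          rw [he', hf', C_pow,
            show (2 * e' + 1) * (2 * f' + 1) = 2 * (2 * e' * f' + e' + f') + 1 by ring,
            pow_succ (-1 : M[X]), pow_mul (-1 : M[X]) 2]
          rw [mul_pow, hγ']
          ring
        rw [e1]
        exact hPD)
    refine ⟨F i ^ (e' + f' + 1) * g, ?_⟩
    rw [mem_pow_iff]
    have e2 : -(F i ^ e i * A * (F i ^ f i * B)) - (F i ^ (e' + f' + 1) * g) ^ 2 =
        F i ^ e i * F i ^ f i * (-(A * B) - g ^ 2) := by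
      rw [he', hf']
      ring
    rw [e2, pow_succ, pow_add]
    exact mul_dvd_mul (mul_dvd_mul (hPw _) (hPw _)) hg

end Pool.Agent.Helper56.CB
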