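import Pool.Agent.Helper65.CB.TEDefs
import Pool.Agent.Helper56.CB.LcFree

/-!
# CB, theorem T-E: `LCU` gives `LC` in `K[X]`
-/

set_option autoImplicit false

namespace Pool.Agent.Helper56.CB

open Polynomial Pool.Agent.Helper16.CB Pool.Agent.Helper65.CB

/-- **LCULC.** -/
theorem lc_of_lcu {K : Type} [Field K] {Q a b : K[X]} (hQ : Irreducible Q) (h : LCU Q a b) :
    LC (Ideal.span {Q}) a b := by
  obtain ⟨e, f, a1, b1, g, h, rfl, rfl, ha1, hb1, hg, hd⟩ := h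
  have hQ0 : Q ≠ 0 := hQ.ne_zero
  have hpr : Prime Q := hQ.prime
  have hnd : ∀ (x y : K[X]), ¬ Q ∣ x → ¬ Q ∣ y → ¬ Q ∣ x * y :=
    fun x y hx hy hxy => (hpr.dvd_or_dvd hxy).elim hx hy
  have hnp : ∀ (x : K[X]) (n : ℕ), ¬ Q ∣ x → ¬ Q ∣ x ^ n :=
    fun x n hx hxn => hx (hpr.dvd_of_dvd_pow hxn)
  refine ⟨e, f, val_of hQ0 ha1 e, val_of hQ0 hb1 f, ?_⟩
  rcases Nat.even_or_odd e with he | he <;> rcases Nat.even_or_odd f with hf | hf
  · exact Or.inl ⟨he, hf⟩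
  · refine Or.inr (Or.inr (Or.inl ⟨he, Nat.not_even_iff_odd.2 hf, ?_⟩))
    obtain ⟨e', he'⟩ := he
    obtain ⟨f', hf'⟩ := hf
    subst he' hf'
    obtain ⟨t, ht⟩ := sq_cancel (x := a1) (y := g * (a1 ^ f' * b1 ^ e')) (h := h) hQ
      (hnd _ _ hg (hnd _ _ (hnp _ _ ha1) (hnp _ _ hb1))) (by
        have e1 : a1 * (g * (a1 ^ f' * b1 ^ e')) ^ 2 - h ^ 2 = g ^ 2 *
            ((-1) ^ ((e' + e') * (2 * f' + 1)) * (a1 ^ (2 * f' + 1) * b1 ^ (e' + e'))) -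
              h ^ 2 := by
          rw [show (e' + e') * (2 * f' + 1) = 2 * (e' * (2 * f' + 1)) by ring,
            pow_mul (-1 : K[X]) 2]
          ring
        rw [e1]
        exact hd)
    refine ⟨Q ^ e' * t, ?_⟩
    rw [mem_pow_iff]
    have e2 : Q ^ (e' + e') * a1 - (Q ^ e' * t) ^ 2 = Q ^ (e' + e') * (a1 - t ^ 2) := by ring
    rw [e2, pow_succ]
    exact mul_dvd_mul dvd_rfl ht
  · refine Or.inr (Or.inl ⟨Nat.not_even_iff_odd.2 he, hf, ?_⟩)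
    obtain ⟨e', he'⟩ := he
    obtain ⟨f', hf'⟩ := hf
    subst he' hf'
    obtain ⟨t, ht⟩ := sq_cancel (x := b1) (y := g * (a1 ^ f' * b1 ^ e')) (h := h) hQ
      (hnd _ _ hg (hnd _ _ (hnp _ _ ha1) (hnp _ _ hb1))) (by
        have e1 : b1 * (g * (a1 ^ f' * b1 ^ e')) ^ 2 - h ^ 2 = g ^ 2 *
            ((-1) ^ ((2 * e' + 1) * (f' + f')) * (a1 ^ (f' + f') * b1 ^ (2 * e' + 1))) -
              h ^ 2 := by
          rw [show (2 * e' + 1) * (f' + f') = 2 * ((2 * e' + 1) * f') by ring,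
            pow_mul (-1 : K[X]) 2]
          ring
        rw [e1]
        exact hd)
    refine ⟨Q ^ f' * t, ?_⟩
    rw [mem_pow_iff]
    have e2 : Q ^ (f' + f') * b1 - (Q ^ f' * t) ^ 2 = Q ^ (f' + f') * (b1 - t ^ 2) := by ring
    rw [e2, pow_succ]
    exact mul_dvd_mul dvd_rfl ht
  · refine Or.inr (Or.inr (Or.inr ⟨Nat.not_even_iff_odd.2 he, Nat.not_even_iff_odd.2 hf, ?_⟩))
    obtain ⟨e', he'⟩ := he
    obtain ⟨f', hf'⟩ := hf
    subst he' hf'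
    obtain ⟨t, ht⟩ := sq_cancel (x := -(a1 * b1)) (y := g * (a1 ^ f' * b1 ^ e')) (h := h) hQ
      (hnd _ _ hg (hnd _ _ (hnp _ _ ha1) (hnp _ _ hb1))) (by
        have e1 : -(a1 * b1) * (g * (a1 ^ f' * b1 ^ e')) ^ 2 - h ^ 2 = g ^ 2 *
            ((-1) ^ ((2 * e' + 1) * (2 * f' + 1)) *
              (a1 ^ (2 * f' + 1) * b1 ^ (2 * e' + 1))) - h ^ 2 := by
          rw [show (2 * e' + 1) * (2 * f' + 1) = 2 * (2 * e' * f' + e' + f') + 1 by ring,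
            pow_succ (-1 : K[X]), pow_mul (-1 : K[X]) 2]
          ring
        rw [e1]
        exact hd)
    refine ⟨Q ^ (e' + f' + 1) * t, ?_⟩
    rw [mem_pow_iff]
    have e2 : -(Q ^ (2 * e' + 1) * a1 * (Q ^ (2 * f' + 1) * b1)) - (Q ^ (e' + f' + 1) * t) ^ 2 =
        Q ^ (2 * e' + 1) * Q ^ (2 * f' + 1) * (-(a1 * b1) - t ^ 2) := by ring
    rw [e2, pow_succ, pow_add]
    exact mul_dvd_mul dvd_rfl ht

end Pool.Agent.Helper56.CB
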