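import Pool.Agent.Helper65.CB.TEDefs

/-!
# CB, theorem T-E: the restriction to coordinate lines
-/

set_option autoImplicit false

namespace Pool.Agent.Helper56.CB

open Polynomial Pool.Agent.Helper65.CB

theorem eval_line {K : Type} [Field K] {σ : Type} [DecidableEq σ] (y : σ → K) (j : σ)
    (a : MvPolynomial σ K) (s : K) :
    (line y j a).eval s = MvPolynomial.eval (Function.update y j s) a := by
  have h : ((evalRingHom s).comp (line y j : MvPolynomial σ K →+* K[X])) =
      MvPolynomial.eval (Function.update y j s) := by
    refine MvPolynomial.ringHom_ext (fun r => ?_) (fun i => ?_)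
    · simp [line, MvPolynomial.algHom_C]
    · rcases eq_or_ne i j with rfl | hij
      · simp [line]
      · simp [line, Function.update_of_ne hij]
  have h2 := RingHom.congr_fun h a
  simpa using h2

theorem natDegree_line_le {K : Type} [Field K] {σ : Type} [DecidableEq σ] (y : σ → K) (j : σ)
    (a : MvPolynomial σ K) : (line y j a).natDegree ≤ a.degreeOf j := by
  unfold line
  rw [MvPolynomial.aeval_def, MvPolynomial.eval₂_eq]
  refine natDegree_sum_le_of_forall_le _ _ (fun d hd => ?_)
  refine (natDegree_C_mul_le _ _).trans ?_
  refine (natDegree_prod_le _ _).trans ?_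
  have h1 : ∀ i ∈ d.support, ((Function.update (fun i => C (y i)) j (X : K[X])) i ^ d i).natDegree ≤
      if i = j then d j else 0 := by
    intro i _
    rcases eq_or_ne i j with rfl | hij
    · simp
    · rw [Function.update_of_ne hij, ← C_pow, natDegree_C, if_neg hij]
  refine (Finset.sum_le_sum h1).trans ?_
  rw [Finset.sum_ite_eq' d.support j]
  split_ifs
  · exact MvPolynomial.monomial_le_degreeOf j hd
  · exact Nat.zero_le _

theorem line_of_degreeOf {K : Type} [Field K] {σ : Type} [DecidableEq σ] (y : σ → K) (j : σ)
    {a : MvPolynomial σ K} (h : a.degreeOf j = 0) : line y j a = C (MvPolynomial.eval y a) := by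
  have h1 : (line y j a).natDegree = 0 := Nat.le_zero.1 (h ▸ natDegree_line_le y j a)
  have h2 := eval_line y j a (y j)
  rw [Function.update_eq_self] at h2
  rw [eq_C_of_natDegree_eq_zero h1] at h2 ⊢
  rw [eval_C] at h2
  rw [h2]

end Pool.Agent.Helper56.CB
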